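import Mathlib
import Pool.Agent.Lib.MP_1f99fc_al.Theory

/-!
Questions Q1 and Q2 of MP_1f99fc_al: for every `n` and every finite field `F`, André's
supercharacter theory of `U_n(F)` is the coarsest supercharacter theory that contains all the
single-box characters as irreducible characters.
-/

namespace Pool.Agent.Results.MP_1f99fc_al.AndreTheoryIsCoarsest

open Pool.Agent.Lib.MP_1f99fc_al

variable {n : ℕ} {F : Type} [Field F] [Fintype F]

/-- `χ` is the single-box supercharacter of the position `(i, j)` with label `a`: an irreducible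
character of `U_n(F)` which is a positive multiple of `g ↦ ∑_{μ ∈ UλU} θ (μ (g - 1))`, where
`λ y = a * y i j`. -/
def IsBoxChar (θ : AddChar F ℂ) (i j : Fin n) (a : F) (χ : UT n F → ℂ) : Prop :=
  χ ∈ Irr (UT n F) ∧
    ∃ c : ℝ, 0 < c ∧ ∀ g, χ g = (c : ℂ) * sfun θ (orb (boxL i j a)) g

/-- Every single-box supercharacter is the only member of a block of `𝒳`. -/
def ContainsBoxes (θ : AddChar F ℂ) (𝒳 : Set (Set (UT n F → ℂ))) : Prop :=
  ∀ i j : Fin n, i < j → ∀ a : F, a ≠ 0 → ∀ χ, IsBoxChar θ i j a χ → {χ} ∈ 𝒳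

lemma blk_eq_of_isBoxChar {θ : AddChar F ℂ} (hθ : θ ≠ 1) {i j : Fin n} (hij : i < j) {a : F}
    {χ : UT n F → ℂ} (h : IsBoxChar θ i j a χ) : blk (sfun θ (orb (boxL i j a))) = {χ} := by
  obtain ⟨h1, c, hc, h2⟩ := h
  have hG : (Nat.card (UT n F) : ℂ) ≠ 0 := by
    exact_mod_cast Nat.card_pos.ne'
  obtain ⟨ψ, hψ⟩ := blk_box (n := n) hθ i j hij a
  have hmem : χ ∈ blk (sfun θ (orb (boxL i j a))) := by
    refine ⟨h1, ?_⟩
    intro h0
    have h3 : χ = (c : ℂ) • sfun θ (orb (boxL i j a)) := by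
      ext g
      exact h2 g
    have h4 := pair_self_of_mem h1
    nth_rewrite 1 [h3] at h4
    rw [pair_smul_left, h0, mul_zero] at h4
    exact hG h4.symm
  rw [hψ] at hmem ⊢
  rw [Set.mem_singleton_iff.mp hmem]

lemma exists_isBoxChar {θ : AddChar F ℂ} (hθ : θ ≠ 1) {i j : Fin n} (hij : i < j) (a : F) :
    ∃ χ, IsBoxChar θ i j a χ := by
  obtain ⟨χ, hχ⟩ := blk_box (n := n) hθ i j hij a
  have hmem : χ ∈ blk (sfun θ (orb (boxL i j a))) := by
    rw [hχ]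
    exact Set.mem_singleton χ
  have hs := sigma_andre (n := n) hθ (boxL i j a)
  rw [hχ] at hs
  have hs' : ∀ g, χ 1 * χ g = sfun θ (orb (boxL i j a)) g := by
    intro g
    rw [← hs, sigma, finsum_mem_singleton]
  refine ⟨χ, hmem.1, ?_⟩
  obtain ⟨⟨V, _, _, _, ρ, hρ, rfl⟩, -⟩ := hmem
  have h1 := Representation.char_one ρ
  have hpos : 0 < Module.finrank ℂ V := by
    have := nontrivial_of_irreducible ρ
    exact Module.finrank_pos
  refine ⟨((Module.finrank ℂ V : ℝ))⁻¹, by positivity, ?_⟩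
  intro g
  rw [← hs' g, h1]
  have h2 : (Module.finrank ℂ V : ℂ) ≠ 0 := by exact_mod_cast hpos.ne'
  push_cast
  rw [inv_mul_cancel_left₀ h2]

theorem result (n : ℕ) (F : Type) [Field F] [Fintype F] (θ : AddChar F ℂ) (hθ : θ ≠ 1) :
    IsSupercharacterTheory (andreX n F θ) (andreK n F) ∧
    (∀ l : Module.Dual F (nn n F), sigma (blk (sfun θ (orb l))) = sfun θ (orb l)) ∧
    (∀ i j : Fin n, i < j → ∀ a : F, a ≠ 0 → ∃ χ, IsBoxChar θ i j a χ ∧
      (∀ ψ, IsBoxChar θ i j a ψ → ψ = χ) ∧ blk (sfun θ (orb (boxL i j a))) = {χ}) ∧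
    ContainsBoxes θ (andreX n F θ) ∧
    ∀ (𝒳 : Set (Set (UT n F → ℂ))) (𝒦 : Set (Set (UT n F))),
      IsSupercharacterTheory 𝒳 𝒦 → ContainsBoxes θ 𝒳 →
        (∀ K ∈ 𝒦, ∃ L ∈ andreK n F, K ⊆ L) ∧ (∀ X ∈ 𝒳, ∃ Y ∈ andreX n F θ, X ⊆ Y) := by
  refine ⟨isSupercharacterTheory_andre hθ, sigma_andre hθ, ?_, ?_, ?_⟩
  · intro i j hij a _
    obtain ⟨χ, hχ⟩ := exists_isBoxChar (n := n) hθ hij a
    refine ⟨χ, hχ, ?_, blk_eq_of_isBoxChar hθ hij hχ⟩
    intro ψ hψ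
    have h1 := blk_eq_of_isBoxChar hθ hij hψ
    rw [blk_eq_of_isBoxChar hθ hij hχ] at h1
    exact (Set.singleton_injective h1).symm
  · intro i j hij a _ χ hχ
    exact ⟨boxL i j a, (blk_eq_of_isBoxChar hθ hij hχ).symm⟩
  · intro 𝒳 𝒦 h hbox
    have hK : ∀ K ∈ 𝒦, ∀ g ∈ K, ∀ k ∈ K, k ∈ scl g := by
      intro K hK g hg k hk
      apply mem_scl_of_sfun_eq hθ
      intro i j hij a ha
      obtain ⟨χ, hχ⟩ := exists_isBoxChar (n := n) hθ hij a
      have h1 := h.constant {χ} (hbox i j hij a ha χ hχ) K hK g hg k hk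
      rw [sigma, sigma, finsum_mem_singleton, finsum_mem_singleton] at h1
      have h2 : χ g = χ k := mul_left_cancel₀ (char_one_ne_zero hχ.1) h1
      obtain ⟨c, hc, h3⟩ := hχ.2
      rw [h3 g, h3 k] at h2
      exact mul_left_cancel₀ (by exact_mod_cast hc.ne') h2
    refine ⟨?_, ?_⟩
    · intro K hKK
      obtain ⟨g, hg⟩ := h.nonempty_class K hKK
      exact ⟨scl g, ⟨g, rfl⟩, fun k hk => hK K hKK g hg k hk⟩
    · intro X hX
      obtain ⟨⟨ψ, hψ⟩, hXI⟩ := h.nonempty_subset X hX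
      obtain ⟨Y, ⟨⟨l, rfl⟩, hψY⟩, -⟩ :=
        (isSupercharacterTheory_andre (n := n) hθ).existsUnique_char ψ (hXI hψ)
      refine ⟨blk (sfun θ (orb l)), ⟨l, rfl⟩, ?_⟩
      apply h.subset_blk _ hX hψ hψY
      intro K hKK g hg k hk
      exact (sfun_of_mem_scl θ l (hK K hKK g hg k hk)).symm

end Pool.Agent.Results.MP_1f99fc_al.AndreTheoryIsCoarsest
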